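import Pool.Agent.W_9986fc_h24.NB.Main

/-!
# Bundles of nilmanifolds: Q1 passes from the base to the total space

Let `M → B` be a bundle of nilmanifolds over a closed manifold (or orbifold) `B = ℝ^b / G` with
Euclidean universal cover, `M = (ℝ^k × ℝ^b) / Γ`, such that `M` is oriented, and let `a` be a class in
`H^2(M; ℝ)` with `a ^ n > 0`, `2 n = k + b`, represented by the closed 2-form `α`. Suppose that the
mean over some fibre of some closed 2-form on `M` is nondegenerate, or that the mean of `α` over every
fibre has rank `k` or less than `k - b`. Then the base is oriented and carries a class with positive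
top power, and if the implication of Q1 holds for `B`, then `M` has a symplectic form.
-/

set_option autoImplicit false
set_option maxSynthPendingDepth 3

open Pool.Agent.W_9986fc_h24.NB

namespace Pool.Agent.Results.MP_9986fc_gt.BundleInheritance

theorem result (k b : ℕ) (N : NilpotentGroup k) (Γ G : Type) [Group Γ] [Group G]
    [MulAction Γ (R k × R b)] [MulAction G (R b)] (X : Bundle N b Γ G)
    (hX : X.ClosedOriented)
    (n : ℕ) (e : Fin n × Fin 2 → R k × R b) (α : R k × R b → R k × R b → R k × R b → ℝ)
    (hα : X.PositiveClass e α)
    (h : (∃ β, X.FibreNondegenerate β) ∨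
      ∀ z, (fibreMatrix N α z).rank = k ∨ (fibreMatrix N α z).rank + b < k) :
    X.BaseCohomologicallySymplectic ∧ (X.BaseQ1 → X.Symplectic e) :=
  main_inherit X hX hα h

end Pool.Agent.Results.MP_9986fc_gt.BundleInheritance
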