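import Pool.Agent.W_9986fc_G.MainG

/-!
MP_9986fc_gt (strike team V12: helper13, helper42, helper63, helper15, helper17).  Symplectic forms on
bundles over 4-manifolds whose symplectic connection has compact connected holonomy.

`X` is a closed connected smooth 4-manifold, `F` a principal `G`-bundle with connection over `X`, `G` a
compact connected group with Lie algebra `g`, `Φ` a fibre `Y` with 2-form and equivariant map
`Φ.mu : Y → g`, for example any Hamiltonian `G`-manifold.
-/

set_option autoImplicit false

open scoped ContDiff Manifold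

namespace Pool.Agent.Results.MP_9986fc_gt.CompactHolonomy

open Pool.Agent.W_MP_d8b8b7_S Pool.Agent.W_9986fc_G

/-- Let `X` be parallelizable, or let the curvature be fat on no ideal `su(2)` of `g`.
(1) If `β` is a closed 2-form on `X` and the coupling form plus `β` is symplectic on `P ×_G Y`, then
`β + ⟨Ω, c⟩` is a symplectic form on `X`, where `c` is the central part of any value of the moment map.
(2) If `Y` is compact and not empty, a symplectic form of this type exists on `P ×_G Y` if and only if `X` is
symplectic. -/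
theorem result (X : Type) [TopologicalSpace X] [ChartedSpace E4 X] [IsManifold I4 ∞ X]
    [CompactSpace X] [T2Space X] [ConnectedSpace X] (K N : ℕ) (G : Set (Mat N N))
    (g : Submodule ℝ (Mat N N)) (hG : IsCompactGroup G g) (F : X → Set (Mat K N))
    (hF : IsPrincipal G F)
    (h : (∃ e : Fin 4 → ∀ x : X, T x, IsParallelization e) ∨
      ∀ s : Submodule ℝ (Mat N N), IsSu2Ideal G g s → ¬ FatOn G g F s)
    (d : ℕ) (Y : Type) [TopologicalSpace Y] [ChartedSpace (EuclideanSpace ℝ (Fin d)) Y]
    (Φ : Fibre G g d Y) :
    (∀ β : Form X 2, SmoothForm β → ClosedForm β → CouplingSymplectic G g F Φ β →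
      ∀ (m : Y) (c : Mat N N), IsCentralPart G g (Φ.mu m) c →
        ∃ Ω : Form X 2, IsSymplectic Ω ∧ ∀ (x : X), ∀ f ∈ F x, ∀ v w : T x,
          val2 Ω x v w = val2 β x v w + curv G g F x f c v w) ∧
    (Nonempty Y → CompactSpace Y → Continuous Φ.mu →
      ((∃ β : Form X 2, SmoothForm β ∧ ClosedForm β ∧ CouplingSymplectic G g F Φ β) ↔
        ∃ Ω : Form X 2, IsSymplectic Ω)) := by
  have h' : ∀ s : Submodule ℝ (Mat N N), IsSu2Ideal G g s → ¬ FatOn G g F s :=
    h.elim (fun h1 => main_noFat hG hF h1) id
  exact ⟨fun _ h1 h2 h3 m c hm =>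
    clauseA hG hF Φ h1 h2 h3 (fun ⟨s, hs, hf⟩ => h' s hs hf) m c hm,
    fun _ _ hμ => main_iff hG hF Φ hμ h'⟩

end Pool.Agent.Results.MP_9986fc_gt.CompactHolonomy
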