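import Pool.Agent.W_9986fc_h24.NB.Main

/-!
# Symplectic classes on bundles of nilmanifolds

Let `M → B` be a bundle of nilmanifolds over a closed manifold (or orbifold) `B = ℝ^b / G` with
Euclidean universal cover, `M = (ℝ^k × ℝ^b) / Γ`, such that `M` is oriented, and suppose that `b ≤ 3`
or that every class of positive top power on `B` contains a symplectic form. Let `a` be a class in
`H^2(M; ℝ)` with `a ^ n > 0`, `2 n = k + b`, represented by the closed 2-form `α`, and let `c_z` be the
left invariant 2-form on the fibre over `z` obtained from `α` by taking the mean.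

* Some `c_z` has rank at least `k - b`.
* If some `c_z` is nondegenerate, then `a` contains a symplectic form.
* If `β` is a closed 2-form on `M` whose mean over some fibre is nondegenerate, then the class of
  `α + t β` contains a symplectic form for all small `t ≠ 0`.
-/

set_option autoImplicit false
set_option maxSynthPendingDepth 3

open Pool.Agent.W_9986fc_h24.NB

namespace Pool.Agent.Results.MP_9986fc_gt.NilmanifoldBundles

theorem result (k b : ℕ) (N : NilpotentGroup k) (Γ G : Type) [Group Γ] [Group G]
    [MulAction Γ (R k × R b)] [MulAction G (R b)] (X : Bundle N b Γ G)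
    (hX : X.ClosedOriented) (hB : 4 ≤ b → X.BaseEveryClass)
    (n : ℕ) (e : Fin n × Fin 2 → R k × R b) (α : R k × R b → R k × R b → R k × R b → ℝ)
    (hα : X.PositiveClass e α) :
    (∃ z, k ≤ (fibreMatrix N α z).rank + b) ∧
    (X.FibreNondegenerate α → X.SymplecticClass e α) ∧
    ∀ β, X.FibreNondegenerate β → ∃ ε : ℝ, 0 < ε ∧ ∀ t : ℝ, 0 < |t| → |t| < ε →
      X.SymplecticClass e (fun x u v => α x u v + t * β x u v) :=
  main_class X hX hB hα

end Pool.Agent.Results.MP_9986fc_gt.NilmanifoldBundles
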