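import Pool.Agent.W_9986fc_h24.Conv
import Pool.Agent.W_9986fc_h24.Prod.Main

/-!
# Products of cohomologically symplectic manifolds

Let `M₁ = E₁ / Γ₁` and `M₂ = E₂ / Γ₂` be closed oriented manifolds (or orbifolds) with Euclidean
universal covers and even dimensions. The product `M₁ × M₂` is cohomologically symplectic (there is a
class `a` in `H^2(M₁ × M₂; ℝ)` with `a ^ n > 0`) if and only if `M₁` and `M₂` are, for orientations
whose product is the given orientation. Hence the implication of Q1 (cohomologically symplectic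
implies symplectic) holds for `M₁ × M₂` if it holds for `M₁` and for `M₂`.
-/

set_option autoImplicit false
set_option maxSynthPendingDepth 3

open MeasureTheory Pool.Agent.W_9986fc_h24.Nice

namespace Pool.Agent.Results.MP_9986fc_gt.ProductTheorem

open Pool.Agent.W_9986fc_h24 in
theorem result (E₁ E₂ Γ₁ Γ₂ : Type)
    [NormedAddCommGroup E₁] [NormedSpace ℝ E₁] [FiniteDimensional ℝ E₁]
    [MeasureSpace E₁] [BorelSpace E₁] [(volume : Measure E₁).IsAddHaarMeasure]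
    [NormedAddCommGroup E₂] [NormedSpace ℝ E₂] [FiniteDimensional ℝ E₂]
    [MeasureSpace E₂] [BorelSpace E₂] [(volume : Measure E₂).IsAddHaarMeasure]
    [Group Γ₁] [Group Γ₂] [MulAction Γ₁ E₁] [MulAction Γ₂ E₂] [A : MulAction (Γ₁ × Γ₂) (E₁ × E₂)]
    (hA : ∀ (g : Γ₁ × Γ₂) (x : E₁ × E₂), g • x = (g.1 • x.1, g.2 • x.2))
    (h₁ : ClosedOriented E₁ Γ₁) (h₂ : ClosedOriented E₂ Γ₂) (he : Even (Module.finrank ℝ E₁)) :
    (∀ (n : ℕ) (B : Module.Basis (Fin n × Fin 2) ℝ (E₁ × E₂)),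
      CohomologicallySymplectic (Γ₁ × Γ₂) B ↔
      ∃ (m₁ m₂ : ℕ) (B₁ : Module.Basis (Fin m₁ × Fin 2) ℝ E₁)
        (B₂ : Module.Basis (Fin m₂ × Fin 2) ℝ E₂), ProductOrientation B B₁ B₂ ∧
        CohomologicallySymplectic Γ₁ B₁ ∧ CohomologicallySymplectic Γ₂ B₂) ∧
    (CohomologicallySymplecticImpliesSymplectic E₁ Γ₁ →
      CohomologicallySymplecticImpliesSymplectic E₂ Γ₂ →
      CohomologicallySymplecticImpliesSymplectic (E₁ × E₂) (Γ₁ × Γ₂)) := by
  have hAe : A = prodAct := by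
    refine MulAction.ext ?_
    funext g x
    exact hA g x
  subst hAe
  have c₁ := isCover h₁
  have c₂ := isCover h₂
  refine ⟨fun n B => ⟨fun h => ?_, ?_⟩, fun w₁ w₂ => ?_⟩
  · obtain ⟨m₁, m₂, B₁, B₂, s₁, s₂, hp⟩ := csymp_factors c₁ c₂ (orient h₁) (orient h₂) he B
      ((csymp_iff B).1 h)
    exact ⟨m₁, m₂, B₁, B₂, (productOrientation_iff B B₁ B₂).2 hp, (csymp_iff B₁).2 s₁,
      (csymp_iff B₂).2 s₂⟩
  · rintro ⟨m₁, m₂, B₁, B₂, hp, s₁, s₂⟩
    exact (csymp_iff B).2 (csymp_prod c₁ c₂ B B₁ B₂ ((csymp_iff B₁).1 s₁) ((csymp_iff B₂).1 s₂)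
      ((productOrientation_iff B B₁ B₂).1 hp))
  · exact weak_iff.2 (weak_prod c₁ c₂ (orient h₁) (orient h₂) he (weak_iff.1 w₁) (weak_iff.1 w₂))

end Pool.Agent.Results.MP_9986fc_gt.ProductTheorem
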